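import Mathlib
import Pool.Agent.helper43.Nuclei.Main
import Pool.Agent.helper35.NucCore

/-!
`(q+1)`-sets with exactly `q-1` nuclei in `AG(2,q)`: the full classification.

The algebraic core is in `Pool.Agent.helper35.Nuc*`, the scaled vector form of the configuration
and the geometric part in `Pool.Agent.helper43.Nuclei.*`.
-/

set_option autoImplicit false

namespace Pool.Agent.Results.MP_49538b_co.Full

open Pool.Agent.Nuclei

/-- Every set `S` of `q + 1` points of `AG(2,q)` with exactly `q - 1` nuclei is of type (i), or
`q = 5` and it is of type (ii). -/
theorem result {F : Type*} [Field F] [Finite F] (S : Set (F × F))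
    (hS : S.ncard = Nat.card F + 1) (hN : {P | IsNucleus S P}.ncard = Nat.card F - 1) :
    TypeI S ∨ TypeII S := by
  have := Fintype.ofFinite F
  exact Pool.Agent.helper43.Nuclei.main_of_core
    (fun S N h h0 => Pool.Agent.helper35.NucCore.core S N h h0) S hS hN

end Pool.Agent.Results.MP_49538b_co.Full
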